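import Pool.Agent.Helper35.OE.GoalsE

set_option autoImplicit false

open MeasureTheory
open scoped ENNReal

namespace Pool.Agent.Helper84.OE

open Pool.Agent.Helper35.OE

theorem sum_inv (A B : Type) :
    ((uni A).prod (uni B)).map (fun p : (A → unitInterval) × (B → unitInterval) =>
      (fun i : A ⊕ B => Sum.elim p.1 p.2 i)) = uni (A ⊕ B) := by
  have hmeas : Measurable (fun p : (A → unitInterval) × (B → unitInterval) =>
      (fun i : A ⊕ B => Sum.elim p.1 p.2 i)) := by
    refine measurable_pi_lambda _ fun i => ?_
    cases i with
    | inl a => exact (measurable_pi_apply a).comp measurable_fst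
    | inr b => exact (measurable_pi_apply b).comp measurable_snd
  refine Measure.eq_infinitePi (μ := fun _ : A ⊕ B => (volume : Measure unitInterval)) ?_
  intro s t ht
  rw [Measure.map_apply hmeas (MeasurableSet.pi s.countable_toSet fun i _ => ht i)]
  have hpre : (fun p : (A → unitInterval) × (B → unitInterval) =>
      (fun i : A ⊕ B => Sum.elim p.1 p.2 i)) ⁻¹' ((s : Set (A ⊕ B)).pi t) =
      ((s.toLeft : Set A).pi (fun a => t (Sum.inl a))) ×ˢ
        ((s.toRight : Set B).pi (fun b => t (Sum.inr b))) := by
    ext p
    simp only [Set.mem_preimage, Set.mem_pi, Finset.mem_coe, Set.mem_prod, Finset.mem_toLeft,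
      Finset.mem_toRight]
    constructor
    · intro h
      exact ⟨fun a ha => h (Sum.inl a) ha, fun b hb => h (Sum.inr b) hb⟩
    · rintro ⟨h1, h2⟩ i hi
      cases i with
      | inl a => exact h1 a hi
      | inr b => exact h2 b hi
  rw [hpre, Measure.prod_prod, Measure.infinitePi_pi _ (fun a _ => ht (Sum.inl a)),
    Measure.infinitePi_pi _ (fun b _ => ht (Sum.inr b))]
  conv_rhs => rw [← Finset.toLeft_disjSum_toRight (u := s)]
  rw [Finset.prod_disjSum]

theorem gSUM : G_SUM := by
  intro A B
  rw [← sum_inv A B, Measure.map_map]
  · have : ((fun x : A ⊕ B → unitInterval => ((fun a => x (Sum.inl a)), (fun b => x (Sum.inr b)))) ∘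
        (fun p : (A → unitInterval) × (B → unitInterval) =>
          (fun i : A ⊕ B => Sum.elim p.1 p.2 i))) = id := by
      funext p
      rfl
    rw [this, Measure.map_id]
  · refine Measurable.prodMk ?_ ?_
    · exact measurable_pi_lambda _ fun a => measurable_pi_apply (Sum.inl a)
    · exact measurable_pi_lambda _ fun b => measurable_pi_apply (Sum.inr b)
  · refine measurable_pi_lambda _ fun i => ?_
    cases i with
    | inl a => exact (measurable_pi_apply a).comp measurable_fst
    | inr b => exact (measurable_pi_apply b).comp measurable_snd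

end Pool.Agent.Helper84.OE
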